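import Pool.Agent.H59.UV.Stm

/-! Mini crew UV, parts CEN and RAT -/

set_option autoImplicit false
open Finset Pool.Agent.H59.UV

namespace Pool.Agent.H8.UV

theorem cen_aux (j : ℕ) : ∀ e : ℕ, e ≤ j → 3 ^ e * j.centralBinom ≤ 2 ^ e * (2 * j + e).choose j := by
  intro e
  induction e with
  | zero =>
    intro _
    simp [Nat.centralBinom_eq_two_mul_choose]
  | succ e ih =>
    intro he
    have h1 := ih (by omega)
    have h2 := Nat.choose_mul_succ_eq (2 * j + e) j
    have h3 : 2 * j + e + 1 - j = j + e + 1 := by omega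
    rw [h3] at h2
    have h4 : 3 * (2 * j + e).choose j ≤ 2 * (2 * j + e + 1).choose j := by
      have h5 : (3 * (2 * j + e).choose j) * (j + e + 1) ≤
          (2 * (2 * j + e + 1).choose j) * (j + e + 1) := by
        calc (3 * (2 * j + e).choose j) * (j + e + 1)
            = (2 * j + e).choose j * (3 * (j + e + 1)) := by ring
          _ ≤ (2 * j + e).choose j * (2 * (2 * j + e + 1)) :=
              Nat.mul_le_mul_left _ (by omega)
          _ = 2 * ((2 * j + e).choose j * (2 * j + e + 1)) := by ring
          _ = (2 * (2 * j + e + 1).choose j) * (j + e + 1) := by rw [h2]; ring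
      exact Nat.le_of_mul_le_mul_right h5 (Nat.succ_pos _)
    calc 3 ^ (e + 1) * j.centralBinom = 3 * (3 ^ e * j.centralBinom) := by ring
      _ ≤ 3 * (2 ^ e * (2 * j + e).choose j) := Nat.mul_le_mul_left _ h1
      _ = 2 ^ e * (3 * (2 * j + e).choose j) := by ring
      _ ≤ 2 ^ e * (2 * (2 * j + e + 1).choose j) := Nat.mul_le_mul_left _ h4
      _ = 2 ^ (e + 1) * (2 * j + (e + 1)).choose j := by
          rw [show 2 * j + (e + 1) = 2 * j + e + 1 by ring]; ring

theorem t_CEN : S_CEN := by
  intro j e n he hn
  exact (cen_aux j e he).trans (Nat.mul_le_mul_left _ (Nat.choose_le_choose j hn))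

theorem t_RAT : S_RAT := by
  intro k m b hkm
  induction b with
  | zero => simp
  | succ b ih =>
    have e1 := Nat.choose_succ_right_eq k b
    have e2 := Nat.choose_succ_right_eq m b
    have h1 : (k - b) * m ≤ (m - b) * k := by
      rcases le_or_gt b k with hb | hb
      · obtain ⟨x, rfl⟩ := Nat.exists_eq_add_of_le hb
        obtain ⟨y, rfl⟩ := Nat.exists_eq_add_of_le hkm
        have a1 : b + x - b = x := by omega
        have a2 : b + x + y - b = x + y := by omega
        rw [a1, a2]
        nlinarith [Nat.zero_le (y * b), Nat.zero_le (x * b)]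
      · have : k - b = 0 := by omega
        rw [this]
        simp
    have h2 : (k.choose (b + 1) * m ^ (b + 1)) * (b + 1) ≤
        (m.choose (b + 1) * k ^ (b + 1)) * (b + 1) := by
      calc (k.choose (b + 1) * m ^ (b + 1)) * (b + 1)
          = (k.choose (b + 1) * (b + 1)) * m ^ b * m := by ring
        _ = (k.choose b * m ^ b) * ((k - b) * m) := by rw [e1]; ring
        _ ≤ (m.choose b * k ^ b) * ((m - b) * k) := Nat.mul_le_mul ih h1
        _ = (m.choose b * (m - b)) * k ^ b * k := by ring
        _ = (m.choose (b + 1) * k ^ (b + 1)) * (b + 1) := by rw [← e2]; ring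
    exact Nat.le_of_mul_le_mul_right h2 (Nat.succ_pos _)

end Pool.Agent.H8.UV
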