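import Pool.Agent.H59.UV.Stm

/-! Mini crew UV, part LOW -/

set_option autoImplicit false
open Finset Pool.Agent.H59.UV

namespace Pool.Agent.H8.UV

theorem step2 (m i : ℕ) (h : m ≤ 3 * i + 2) : m.choose (i + 1) ≤ 2 * m.choose i := by
  have e := Nat.choose_succ_right_eq m i
  have h1 : m - i ≤ 2 * (i + 1) := by omega
  have h2 : m.choose (i + 1) * (i + 1) ≤ (2 * m.choose i) * (i + 1) := by
    rw [e]
    calc m.choose i * (m - i) ≤ m.choose i * (2 * (i + 1)) := Nat.mul_le_mul_left _ h1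
      _ = (2 * m.choose i) * (i + 1) := by ring
  exact Nat.le_of_mul_le_mul_right h2 (Nat.succ_pos i)

theorem steps (m k : ℕ) (h : m ≤ 3 * k + 2) (s : ℕ) : m.choose (k + s) ≤ 2 ^ s * m.choose k := by
  induction s with
  | zero => simp
  | succ s ih =>
    have h1 := step2 m (k + s) (by omega)
    calc m.choose (k + (s + 1)) = m.choose (k + s + 1) := by rw [add_assoc]
      _ ≤ 2 * m.choose (k + s) := h1
      _ ≤ 2 * (2 ^ s * m.choose k) := Nat.mul_le_mul_left _ ih
      _ = 2 ^ (s + 1) * m.choose k := by ring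

theorem two_pow_le (m : ℕ) : 2 ^ m ≤ (m + 1) * m.choose (m / 2) := by
  rw [← Nat.sum_range_choose m]
  calc ∑ i ∈ range (m + 1), m.choose i ≤ ∑ _i ∈ range (m + 1), m.choose (m / 2) :=
        Finset.sum_le_sum (fun i _ => Nat.choose_le_middle i m)
    _ = (m + 1) * m.choose (m / 2) := by simp

theorem low_half (m k t : ℕ) (h6 : 6 * t ≤ m) (h1 : m ≤ 2 * k + 2 * t) (h2 : k ≤ m / 2) :
    2 ^ m ≤ (m + 1) * 2 ^ (t + 1) * m.choose k := by
  obtain ⟨s, hs⟩ := Nat.exists_eq_add_of_le h2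
  have hst : s ≤ t + 1 := by omega
  have h3 := steps m k (by omega) s
  rw [← hs] at h3
  calc 2 ^ m ≤ (m + 1) * m.choose (m / 2) := two_pow_le m
    _ ≤ (m + 1) * (2 ^ s * m.choose k) := Nat.mul_le_mul_left _ h3
    _ ≤ (m + 1) * (2 ^ (t + 1) * m.choose k) :=
        Nat.mul_le_mul_left _ (Nat.mul_le_mul_right _ (Nat.pow_le_pow_right (by norm_num) hst))
    _ = (m + 1) * 2 ^ (t + 1) * m.choose k := by ring

theorem t_LOW : S_LOW := by
  intro m k t h6 h1 h2
  by_cases hk : k ≤ m / 2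
  · exact low_half m k t h6 h1 hk
  · have hkm : k ≤ m := by omega
    rw [← Nat.choose_symm hkm]
    exact low_half m (m - k) t h6 (by omega) (by omega)

end Pool.Agent.H8.UV
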